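import Mathlib

/-!
# BR, block END, P11: an Azumaya algebra is generically central simple
-/

set_option autoImplicit false

namespace Pool.Agent.Helper36.BR

open TensorProduct

section

variable {R : Type} [CommRing R] [IsDomain R] {A : Type} [Ring A] [Algebra R A]

/-- an endomorphism of the algebra `F ⊗ A` which preserves the ideals and commutes with the
center -/
def Good (ψ : (FractionRing R ⊗[R] A) →ₗ[FractionRing R] (FractionRing R ⊗[R] A)) : Prop :=
  (∀ (I : TwoSidedIdeal (FractionRing R ⊗[R] A)) (x), x ∈ I → ψ x ∈ I) ∧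
    ∀ z : FractionRing R ⊗[R] A, (∀ y, z * y = y * z) → ∀ x, ψ (z * x) = z * ψ x

omit [IsDomain R] in
theorem Good.add {ψ ψ' : (FractionRing R ⊗[R] A) →ₗ[FractionRing R] (FractionRing R ⊗[R] A)}
    (h : Good ψ) (h' : Good ψ') : Good (ψ + ψ') := by
  refine ⟨fun I x hx => I.add_mem (h.1 I x hx) (h'.1 I x hx), fun z hz x => ?_⟩
  rw [LinearMap.add_apply, LinearMap.add_apply, h.2 z hz, h'.2 z hz, mul_add]

omit [IsDomain R] in
theorem good_of (T : A ⊗[R] Aᵐᵒᵖ) :
    Good (LinearMap.baseChange (FractionRing R) (AlgHom.mulLeftRight R A T)) := by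
  induction T using TensorProduct.induction_on with
  | zero =>
    rw [map_zero, LinearMap.baseChange_zero]
    refine ⟨fun I x hx => I.zero_mem, fun z hz x => ?_⟩
    rw [LinearMap.zero_apply, LinearMap.zero_apply, mul_zero]
  | tmul a b =>
    have h : ∀ x : FractionRing R ⊗[R] A,
        LinearMap.baseChange (FractionRing R) (AlgHom.mulLeftRight R A (a ⊗ₜ b)) x =
        (1 ⊗ₜ a) * x * (1 ⊗ₜ b.unop) := by
      intro x
      induction x using TensorProduct.induction_on with
      | zero => rw [map_zero, mul_zero, zero_mul]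
      | tmul c y =>
        rw [LinearMap.baseChange_tmul, AlgHom.mulLeftRight_apply,
          Algebra.TensorProduct.tmul_mul_tmul, Algebra.TensorProduct.tmul_mul_tmul, one_mul,
          mul_one]
      | add x y hx hy => rw [map_add, hx, hy, mul_add, add_mul]
    refine ⟨fun I x hx => ?_, fun z hz x => ?_⟩
    · rw [h]
      exact I.mul_mem_right _ _ (I.mul_mem_left _ _ hx)
    · rw [h, h, ← mul_assoc, ← hz, mul_assoc z, mul_assoc z]
  | add x y hx hy =>
    rw [map_add, LinearMap.baseChange_add]
    exact hx.add hy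

theorem exists_good [IsAzumaya R A] (f : (FractionRing R ⊗[R] A) →ₗ[FractionRing R] FractionRing R) :
    ∃ c : FractionRing R, c ≠ 0 ∧ Good ((c • f).smulRight (1 : FractionRing R ⊗[R] A)) := by
  obtain ⟨n, s, hs⟩ := Module.Finite.exists_fin (R := R) (M := A)
  obtain ⟨d, hd⟩ := IsLocalization.exist_integer_multiples_of_finite (nonZeroDivisors R)
    (fun i : Fin n => f (1 ⊗ₜ s i))
  have hd0 : (d : R) ≠ 0 := nonZeroDivisors.ne_zero d.2
  let g : A →ₗ[R] FractionRing R :=
    { toFun := fun a => (d : R) • f (1 ⊗ₜ a)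
      map_add' := fun a b => by rw [TensorProduct.tmul_add, map_add, smul_add]
      map_smul' := fun r a => by
        have h : (1 : FractionRing R) ⊗ₜ[R] (r • a) =
            (algebraMap R (FractionRing R) r) • ((1 : FractionRing R) ⊗ₜ[R] a) := by
          rw [algebraMap_smul, TensorProduct.tmul_smul]
        rw [h, map_smul, RingHom.id_apply, algebraMap_smul, smul_comm] }
  have hg : ∀ a, g a ∈ LinearMap.range (Algebra.linearMap R (FractionRing R)) := by
    intro a
    have ha : a ∈ Submodule.span R (Set.range s) := by rw [hs]; trivial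
    induction ha using Submodule.span_induction with
    | mem x hx =>
      obtain ⟨i, rfl⟩ := hx
      obtain ⟨r, hr⟩ := hd i
      exact ⟨r, hr⟩
    | zero => rw [map_zero]; exact Submodule.zero_mem _
    | add x y _ _ hx hy => rw [map_add]; exact Submodule.add_mem _ hx hy
    | smul r x _ hx => rw [map_smul]; exact Submodule.smul_mem _ _ hx
  have hinj : Function.Injective (Algebra.linearMap R (FractionRing R)) :=
    IsFractionRing.injective R (FractionRing R)
  let g0 : A →ₗ[R] R := (LinearEquiv.ofInjective _ hinj).symm.toLinearMap ∘ₗ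
    (g.codRestrict _ hg)
  have hg0 : ∀ a, algebraMap R (FractionRing R) (g0 a) = g a := by
    intro a
    have h := (LinearEquiv.ofInjective _ hinj).apply_symm_apply (g.codRestrict _ hg a)
    exact congrArg Subtype.val h
  obtain ⟨T, hT⟩ := (IsAzumaya.bij (R := R) (A := A)).2 (g0.smulRight (1 : A))
  refine ⟨algebraMap R (FractionRing R) d, ?_, ?_⟩
  · rw [Ne, IsFractionRing.to_map_eq_zero_iff]
    exact hd0
  · have h := good_of T
    rw [hT] at h
    convert h using 1
    ext a
    change (algebraMap R (FractionRing R) d • f) (1 ⊗ₜ a) • (1 : FractionRing R ⊗[R] A) =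
      LinearMap.baseChange (FractionRing R) (g0.smulRight (1 : A)) (1 ⊗ₜ a)
    have h1 : g a = (d : R) • f (1 ⊗ₜ a) := rfl
    rw [LinearMap.baseChange_tmul, LinearMap.smulRight_apply, TensorProduct.tmul_smul,
      ← Algebra.TensorProduct.one_def, ← algebraMap_smul (FractionRing R) (g0 a), hg0, h1,
      LinearMap.smul_apply, algebraMap_smul]

end

/-- **P11.** an Azumaya algebra is generically central simple (every linear endomorphism of
`F ⊗ A` is a sum of maps `x ↦ a x b`: `IsAzumaya.bij` and base change) -/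
theorem generic_of_azumaya {R : Type} [CommRing R] [IsDomain R] (A : Type) [Ring A] [Algebra R A]
    [IsAzumaya R A] :
    Algebra.IsCentral (FractionRing R) (FractionRing R ⊗[R] A) ∧
      IsSimpleRing (FractionRing R ⊗[R] A) := by
  have hRA : Function.Injective (algebraMap R A) := FaithfulSMul.algebraMap_injective R A
  have hFB : Function.Injective (algebraMap (FractionRing R) (FractionRing R ⊗[R] A)) :=
    Algebra.TensorProduct.includeLeft_injective (S := R) hRA
  have hnt : Nontrivial (FractionRing R ⊗[R] A) := hFB.nontrivial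
  have hf : ∀ x : FractionRing R ⊗[R] A, x ≠ 0 →
      ∃ f : (FractionRing R ⊗[R] A) →ₗ[FractionRing R] FractionRing R, f x ≠ 0 := by
    intro x hx
    by_contra hcon
    push Not at hcon
    exact hx ((Module.forall_dual_apply_eq_zero_iff (FractionRing R) x).1 hcon)
  constructor
  · refine ⟨fun z hz => ?_⟩
    rw [Subalgebra.mem_center_iff] at hz
    obtain ⟨f, hf1⟩ := hf 1 one_ne_zero
    obtain ⟨c, hc, hg⟩ := exists_good f
    have h := hg.2 z (fun y => (hz y).symm) 1
    rw [mul_one, LinearMap.smulRight_apply, LinearMap.smulRight_apply, mul_smul_comm, mul_one] at h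
    have h1 : (c • f) 1 ≠ 0 := by
      rw [LinearMap.smul_apply, smul_eq_mul]
      exact mul_ne_zero hc hf1
    rw [Algebra.mem_bot]
    refine ⟨((c • f) 1)⁻¹ * (c • f) z, ?_⟩
    rw [Algebra.algebraMap_eq_smul_one, mul_smul, h, smul_smul, inv_mul_cancel₀ h1, one_smul]
  · apply IsSimpleRing.of_eq_bot_or_eq_top
    intro I
    rw [or_iff_not_imp_left, ← I.one_mem_iff]
    intro H
    obtain ⟨x, hx1, hx2⟩ := SetLike.exists_of_lt (bot_lt_iff_ne_bot.mpr H : ⊥ < I)
    have hx0 : x ≠ 0 := hx2
    obtain ⟨f, hf1⟩ := hf x hx0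
    obtain ⟨c, hc, hg⟩ := exists_good f
    have h := hg.1 I x hx1
    rw [LinearMap.smulRight_apply] at h
    have h1 : (c • f) x ≠ 0 := by
      rw [LinearMap.smul_apply, smul_eq_mul]
      exact mul_ne_zero hc hf1
    have h2 := I.mul_mem_left (algebraMap _ _ ((c • f) x)⁻¹) _ h
    rw [Algebra.algebraMap_eq_smul_one, smul_mul_smul_comm, mul_one, inv_mul_cancel₀ h1,
      one_smul] at h2
    exact h2

end Pool.Agent.Helper36.BR
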